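import Mathlib
import Pool.Agent.Helper54.Taut.Example

/-!
Geometry of the unit sphere of `ℝ³` used for the path connectedness of the path space.
-/

set_option autoImplicit false

open Set Filter MeasureTheory Module Topology
open scoped ContDiff RealInnerProductSpace Cardinal

namespace Pool.Agent.Helper81.TautD

open Pool.Agent.Helper54.Taut

/-- cones over a rectifiable curve on the sphere have dimension at most two -/
theorem dimH_cone_le (f : ℝ → E3) (s : ℝ → ℝ) (hn : ∀ t ∈ Icc (0:ℝ) 1, ‖f t‖ = 1)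
    (hf : ∀ t ∈ Icc (0:ℝ) 1, ∀ u ∈ Icc (0:ℝ) 1, ‖f t - f u‖ ≤ |s t - s u|) :
    dimH {z : E3 | ∃ r ∈ Icc (0:ℝ) 2, ∃ t ∈ Icc (0:ℝ) 1, z = r • f t} ≤ 2 := by
  classical
  -- choose parameter
  let τ : ℝ → ℝ := fun u => if h : ∃ t ∈ Icc (0:ℝ) 1, s t = u then h.choose else 0
  have hτ : ∀ u ∈ s '' Icc (0:ℝ) 1, τ u ∈ Icc (0:ℝ) 1 ∧ s (τ u) = u := by
    rintro u ⟨t, ht, rfl⟩
    have h : ∃ t' ∈ Icc (0:ℝ) 1, s t' = s t := ⟨t, ht, rfl⟩
    have : τ (s t) = h.choose := by simp only [τ]; rw [dif_pos h]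
    rw [this]
    exact h.choose_spec
  let Φ : ℝ × ℝ → E3 := fun p => p.1 • f (τ p.2)
  have hΦ : LipschitzOnWith 3 Φ (Icc (0:ℝ) 2 ×ˢ (s '' Icc (0:ℝ) 1)) := by
    apply LipschitzOnWith.of_dist_le_mul
    rintro ⟨r, u⟩ ⟨hr, hu⟩ ⟨r', u'⟩ ⟨hr', hu'⟩
    simp only at hr hu hr' hu'
    have h1 := hτ u hu
    have h2 := hτ u' hu'
    have h3 : ‖f (τ u) - f (τ u')‖ ≤ |u - u'| := by
      have := hf _ h1.1 _ h2.1
      rwa [h1.2, h2.2] at this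
    have h4 : Φ (r, u) - Φ (r', u') = (r - r') • f (τ u) + r' • (f (τ u) - f (τ u')) := by
      simp only [Φ]
      module
    rw [dist_eq_norm, h4, Prod.dist_eq, Real.dist_eq, Real.dist_eq]
    have h5 : ‖(r - r') • f (τ u)‖ = |r - r'| := by
      rw [norm_smul, hn _ h1.1, mul_one, Real.norm_eq_abs]
    have h6 : ‖r' • (f (τ u) - f (τ u'))‖ ≤ 2 * |u - u'| := by
      rw [norm_smul, Real.norm_eq_abs, abs_of_nonneg hr'.1]
      exact mul_le_mul hr'.2 h3 (norm_nonneg _) (by norm_num)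
    have h7 := le_max_left |r - r'| |u - u'|
    have h8 := le_max_right |r - r'| |u - u'|
    calc _ ≤ _ := norm_add_le _ _
      _ ≤ _ := by
        rw [h5]
        push_cast
        linarith
  have hsub : {z : E3 | ∃ r ∈ Icc (0:ℝ) 2, ∃ t ∈ Icc (0:ℝ) 1, z = r • f t} ⊆
      Φ '' (Icc (0:ℝ) 2 ×ˢ (s '' Icc (0:ℝ) 1)) := by
    rintro z ⟨r, hr, t, ht, rfl⟩
    refine ⟨(r, s t), ⟨hr, mem_image_of_mem _ ht⟩, ?_⟩
    have h1 := hτ (s t) (mem_image_of_mem _ ht)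
    have h2 := hf _ h1.1 _ ht
    rw [h1.2, sub_self, abs_zero] at h2
    have h3 : f (τ (s t)) = f t := by
      have := norm_le_zero_iff.1 h2
      exact sub_eq_zero.1 this
    simp only [Φ, h3]
  calc _ ≤ dimH (Φ '' (Icc (0:ℝ) 2 ×ˢ (s '' Icc (0:ℝ) 1))) := dimH_mono hsub
    _ ≤ dimH (Icc (0:ℝ) 2 ×ˢ (s '' Icc (0:ℝ) 1)) := hΦ.dimH_image_le
    _ ≤ dimH (univ : Set (ℝ × ℝ)) := dimH_mono (subset_univ _)
    _ = 2 := by
      rw [Real.dimH_univ_eq_finrank]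
      simp

/-- two rectifiable curves on the sphere miss a common point -/
theorem exists_missed (f g : ℝ → E3) (s s' : ℝ → ℝ)
    (hnf : ∀ t ∈ Icc (0:ℝ) 1, ‖f t‖ = 1) (hng : ∀ t ∈ Icc (0:ℝ) 1, ‖g t‖ = 1)
    (hf : ∀ t ∈ Icc (0:ℝ) 1, ∀ u ∈ Icc (0:ℝ) 1, ‖f t - f u‖ ≤ |s t - s u|)
    (hg : ∀ t ∈ Icc (0:ℝ) 1, ∀ u ∈ Icc (0:ℝ) 1, ‖g t - g u‖ ≤ |s' t - s' u|) :
    ∃ q : E3, ‖q‖ = 1 ∧ (∀ t ∈ Icc (0:ℝ) 1, f t ≠ q) ∧ (∀ t ∈ Icc (0:ℝ) 1, g t ≠ q) := by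
  set K1 : Set E3 := {z : E3 | ∃ r ∈ Icc (0:ℝ) 2, ∃ t ∈ Icc (0:ℝ) 1, z = r • f t} with hK1
  set K2 : Set E3 := {z : E3 | ∃ r ∈ Icc (0:ℝ) 2, ∃ t ∈ Icc (0:ℝ) 1, z = r • g t} with hK2
  have h1 : dimH (K1 ∪ K2) < finrank ℝ E3 := by
    rw [dimH_union]
    have := dimH_cone_le f s hnf hf
    have := dimH_cone_le g s' hng hg
    have h3 : ((finrank ℝ E3 : ℕ) : ENNReal) = 3 := by simp
    rw [h3]
    refine lt_of_le_of_lt (max_le (dimH_cone_le f s hnf hf) (dimH_cone_le g s' hng hg)) ?_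
    norm_num
  have h2 : Dense (K1 ∪ K2)ᶜ := dense_compl_of_dimH_lt_finrank h1
  set e : E3 := EuclideanSpace.single 0 1 with he
  have hen : ‖e‖ = 1 := by simp [he]
  obtain ⟨z, hz1, hz2⟩ := h2.exists_mem_open (Metric.isOpen_ball (x := e) (ε := 1/2))
    ⟨e, Metric.mem_ball_self (by norm_num)⟩
  rw [Metric.mem_ball, dist_eq_norm] at hz2
  have h4 : ‖z‖ ≤ 2 := by
    have : ‖z‖ ≤ ‖z - e‖ + ‖e‖ := by
      calc ‖z‖ = ‖(z - e) + e‖ := by rw [sub_add_cancel]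
        _ ≤ _ := norm_add_le _ _
    linarith
  have h5 : 0 < ‖z‖ := by
    have : ‖e‖ ≤ ‖z - e‖ + ‖z‖ := by
      calc ‖e‖ = ‖z - (z - e)‖ := by rw [sub_sub_cancel]
        _ ≤ ‖z‖ + ‖z - e‖ := norm_sub_le _ _
        _ = _ := add_comm _ _
    linarith
  have key : ∀ y : E3, y = ‖z‖⁻¹ • z → z = ‖z‖ • y := by
    intro y hy
    rw [hy, smul_smul, mul_inv_cancel₀ h5.ne', one_smul]
  refine ⟨‖z‖⁻¹ • z, ?_, ?_, ?_⟩
  · rw [norm_smul, norm_inv, norm_norm, inv_mul_cancel₀ h5.ne']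
  · intro t ht h
    exact hz1 (Or.inl ⟨‖z‖, ⟨h5.le, h4⟩, t, ht, key _ h⟩)
  · intro t ht h
    exact hz1 (Or.inr ⟨‖z‖, ⟨h5.le, h4⟩, t, ht, key _ h⟩)

/-- stereographic projection from `q` -/
noncomputable def sφ (q y : E3) : E3 := (1 - ⟪y, q⟫)⁻¹ • (y - ⟪y, q⟫ • q)

/-- inverse stereographic projection -/
noncomputable def sψ (q w : E3) : E3 := (‖w‖ ^ 2 + 1)⁻¹ • ((2:ℝ) • w + (‖w‖ ^ 2 - 1) • q)

theorem inner_sφ {q : E3} (hq : ‖q‖ = 1) (y : E3) : ⟪sφ q y, q⟫ = 0 := by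
  simp only [sφ]
  rw [real_inner_smul_left, inner_sub_left, real_inner_smul_left, real_inner_self_eq_norm_sq, hq]
  ring

theorem norm_sψ {q : E3} (hq : ‖q‖ = 1) {w : E3} (hw : ⟪w, q⟫ = 0) : ‖sψ q w‖ = 1 := by
  have h1 : ‖(2:ℝ) • w + (‖w‖ ^ 2 - 1) • q‖ ^ 2 = (‖w‖ ^ 2 + 1) ^ 2 := by
    rw [norm_add_sq_real, norm_smul, norm_smul, real_inner_smul_left, real_inner_smul_right, hw, hq]
    simp only [Real.norm_eq_abs, mul_pow, sq_abs]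
    ring
  have h2 : ‖(2:ℝ) • w + (‖w‖ ^ 2 - 1) • q‖ = ‖w‖ ^ 2 + 1 := by
    have h3 : 0 ≤ ‖w‖ ^ 2 + 1 := by positivity
    exact (sq_eq_sq₀ (norm_nonneg _) h3).1 h1
  have h3 : (0:ℝ) < ‖w‖ ^ 2 + 1 := by positivity
  simp only [sψ]
  rw [norm_smul, h2, norm_inv, Real.norm_eq_abs, abs_of_pos h3, inv_mul_cancel₀ h3.ne']

theorem inner_ne_one {q y : E3} (hq : ‖q‖ = 1) (hy : ‖y‖ = 1) (h : y ≠ q) : 1 - ⟪y, q⟫ ≠ 0 := by
  intro h1
  apply h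
  have h2 : ‖y - q‖ ^ 2 = 0 := by
    rw [norm_sub_sq_real, hq, hy]
    linarith
  have h3 : ‖y - q‖ = 0 := by
    exact pow_eq_zero_iff (two_ne_zero) |>.1 h2
  exact sub_eq_zero.1 (norm_eq_zero.1 h3)

theorem sψ_sφ {q y : E3} (hq : ‖q‖ = 1) (hy : ‖y‖ = 1) (h : y ≠ q) : sψ q (sφ q y) = y := by
  have h0 := inner_ne_one hq hy h
  set a := ⟪y, q⟫ with ha
  have h1 : ‖sφ q y‖ ^ 2 = (1 + a) / (1 - a) := by
    have h2 : ‖y - a • q‖ ^ 2 = (1 - a) * (1 + a) := by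
      rw [norm_sub_sq_real, real_inner_smul_right, norm_smul, hq, hy, ← ha]
      simp only [Real.norm_eq_abs, mul_pow, sq_abs]
      ring
    simp only [sφ]
    rw [← ha, norm_smul, mul_pow, h2, norm_inv, Real.norm_eq_abs, inv_pow, sq_abs]
    field_simp
  have h3 : ‖sφ q y‖ ^ 2 + 1 = 2 / (1 - a) := by
    rw [h1]; field_simp; ring
  have h4 : ‖sφ q y‖ ^ 2 - 1 = 2 * a / (1 - a) := by
    rw [h1]; field_simp; ring
  unfold sψ
  rw [h3, h4]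
  simp only [sφ]
  rw [← ha]
  have h5 : (2 / (1 - a))⁻¹ = (1 - a) / 2 := by rw [inv_div]
  rw [h5, smul_add, smul_smul, smul_smul, smul_smul]
  have h6 : (1 - a) / 2 * 2 * (1 - a)⁻¹ = 1 := by field_simp
  have h7 : (1 - a) / 2 * (2 * a / (1 - a)) = a := by field_simp
  rw [h6, h7, one_smul, sub_add_cancel]

/-- the homotopy along stereographic segments -/
noncomputable def sH (q : E3) (s : ℝ) (y y' : E3) : E3 := sψ q ((1 - s) • sφ q y + s • sφ q y')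

theorem norm_sH {q : E3} (hq : ‖q‖ = 1) (s : ℝ) (y y' : E3) : ‖sH q s y y'‖ = 1 := by
  apply norm_sψ hq
  rw [inner_add_left, real_inner_smul_left, real_inner_smul_left, inner_sφ hq, inner_sφ hq]
  ring

theorem sH_zero {q y : E3} (hq : ‖q‖ = 1) (hy : ‖y‖ = 1) (h : y ≠ q) (y' : E3) :
    sH q 0 y y' = y := by
  simp only [sH, sub_zero, one_smul, zero_smul, add_zero]
  exact sψ_sφ hq hy h

theorem sH_one {q y' : E3} (hq : ‖q‖ = 1) (hy : ‖y'‖ = 1) (h : y' ≠ q) (y : E3) :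
    sH q 1 y y' = y' := by
  simp only [sH, sub_self, one_smul, zero_smul, zero_add]
  exact sψ_sφ hq hy h

theorem sH_same {q y : E3} (hq : ‖q‖ = 1) (hy : ‖y‖ = 1) (h : y ≠ q) (s : ℝ) :
    sH q s y y = y := by
  have : (1 - s) • sφ q y + s • sφ q y = sφ q y := by module
  rw [sH, this]
  exact sψ_sφ hq hy h

theorem contDiff_sψ (q : E3) : ContDiff ℝ 1 (sψ q) := by
  have h1 : ContDiff ℝ 1 (fun w : E3 => ‖w‖ ^ 2) := contDiff_id.norm_sq ℝ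
  have h2 : ContDiff ℝ 1 (fun w : E3 => (‖w‖ ^ 2 + 1)⁻¹) := by
    apply ContDiff.inv
    · exact h1.add contDiff_const
    · intro w; positivity
  have h4 : ContDiff ℝ 1 (fun w : E3 => (2:ℝ) • w) := contDiff_id.const_smul (2:ℝ)
  have h5 : ContDiff ℝ 1 (fun w : E3 => (‖w‖ ^ 2 - 1) • q) :=
    (h1.sub contDiff_const).smul contDiff_const
  exact h2.smul (h4.add h5)

theorem contDiffOn_sφ (q : E3) : ContDiffOn ℝ 1 (sφ q) {y : E3 | 1 - ⟪y, q⟫ ≠ 0} := by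
  have h1 : ContDiff ℝ 1 (fun y : E3 => ⟪y, q⟫) := contDiff_id.inner ℝ contDiff_const
  have h2 : ContDiffOn ℝ 1 (fun y : E3 => (1 - ⟪y, q⟫)⁻¹) {y : E3 | 1 - ⟪y, q⟫ ≠ 0} := by
    apply ContDiffOn.inv
    · exact (contDiff_const.sub h1).contDiffOn
    · intro w hw; exact hw
  have h3 : ContDiffOn ℝ 1 (fun y : E3 => y - ⟪y, q⟫ • q) {y : E3 | 1 - ⟪y, q⟫ ≠ 0} :=
    (contDiff_id.sub (h1.smul contDiff_const)).contDiffOn
  exact h2.smul h3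

/-- rotation about the third axis -/
noncomputable def rot (a : ℝ) (y : E3) : E3 :=
  !₂[Real.cos a * y 0 - Real.sin a * y 1, Real.sin a * y 0 + Real.cos a * y 1, y 2]

theorem norm_rot (a : ℝ) (y : E3) : ‖rot a y‖ = ‖y‖ := by
  rw [EuclideanSpace.norm_eq, EuclideanSpace.norm_eq]
  congr 1
  simp only [Fin.sum_univ_three, rot, Real.norm_eq_abs, sq_abs]
  simp
  have := Real.sin_sq_add_cos_sq a
  nlinarith [this]

theorem rot_zero (y : E3) : rot 0 y = y := by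
  ext i
  fin_cases i <;> simp [rot]

theorem contDiff_rot {X : Type} [NormedAddCommGroup X] [NormedSpace ℝ X] {a : X → ℝ} {f : X → E3}
    (ha : ContDiff ℝ 1 a) (hf : ContDiff ℝ 1 f) : ContDiff ℝ 1 (fun x => rot (a x) (f x)) := by
  have hf' := contDiff_euclidean.1 hf
  apply contDiff_euclidean.2
  intro i
  fin_cases i
  · simpa [rot] using ((ha.cos).mul (hf' 0)).sub ((ha.sin).mul (hf' 1))
  · simpa [rot] using ((ha.sin).mul (hf' 0)).add ((ha.cos).mul (hf' 1))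
  · simpa [rot] using hf' 2

end Pool.Agent.Helper81.TautD
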