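import Mathlib
import Pool.Agent.Helper54.Taut.Example
import Pool.Agent.Helper54.Taut.Kit
import Pool.Agent.Helper81.Taut.Sphere

/-!
The path space `P(S² × S², M × p)` is path connected (in the `H¹` topology).
-/

set_option autoImplicit false

open Set Filter MeasureTheory Module Topology
open scoped ContDiff RealInnerProductSpace Cardinal

namespace Pool.Agent.Helper81.TautD

open Pool.Agent.Helper54.Taut

/-- `H¹` paths are rectifiable -/
theorem exists_length {V : Type} [NormedAddCommGroup V] [NormedSpace ℝ V] (γ : H1 V) :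
    ∃ s : ℝ → ℝ, ∀ t ∈ Icc (0:ℝ) 1, ∀ u ∈ Icc (0:ℝ) 1,
      ‖path γ t - path γ u‖ ≤ |s t - s u| := by
  have hint : Integrable (γ.2 : ℝ → V) leb := (Lp.memLp γ.2).integrable (by norm_num)
  have hI : ∀ t ∈ Icc (0:ℝ) 1, ∀ u ∈ Icc (0:ℝ) 1,
      IntervalIntegrable (γ.2 : ℝ → V) volume t u := by
    intro t ht u hu
    have h1 : IntegrableOn (γ.2 : ℝ → V) (Icc (0:ℝ) 1) volume := hint
    apply IntegrableOn.intervalIntegrable
    apply h1.mono_set
    exact uIcc_subset_Icc ht hu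
  have h0 : (0:ℝ) ∈ Icc (0:ℝ) 1 := ⟨le_rfl, zero_le_one⟩
  refine ⟨fun t => ∫ r in (0:ℝ)..t, ‖γ.2 r‖, ?_⟩
  intro t ht u hu
  simp only [path, add_sub_add_left_eq_sub]
  rw [intervalIntegral.integral_interval_sub_left (hI 0 h0 t ht) (hI 0 h0 u hu),
    intervalIntegral.integral_interval_sub_left (hI 0 h0 t ht).norm (hI 0 h0 u hu).norm]
  exact intervalIntegral.norm_integral_le_abs_integral_norm

theorem joinedIn_of_comp {X : Type} [NormedAddCommGroup X] [NormedSpace ℝ X] [CompleteSpace X]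
    {P : Set (H1 V6)} {Ω : Set (ℝ × X)} (hΩ : IsOpen Ω) {Ψ : ℝ × X → V6}
    (hΨ : ContDiffOn ℝ 1 Ψ Ω) (ξ : H1 X) (γ η : H1 V6)
    (h : ∀ s ∈ Icc (0:ℝ) 1, ∀ t ∈ Icc (0:ℝ) 1, (s, path ξ t) ∈ Ω)
    (h0 : ∀ t ∈ Icc (0:ℝ) 1, Ψ (0, path ξ t) = path γ t)
    (h1 : ∀ t ∈ Icc (0:ℝ) 1, Ψ (1, path ξ t) = path η t)
    (hP : ∀ s ∈ Icc (0:ℝ) 1, ∀ μ : H1 V6,
      (∀ t ∈ Icc (0:ℝ) 1, path μ t = Ψ (s, path ξ t)) → μ ∈ P) : JoinedIn P γ η := by
  have hmem : ∀ s ∈ Icc (0:ℝ) 1, ∀ t ∈ Icc (0:ℝ) 1, path (pair (const s) ξ) t ∈ Ω := by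
    intro s hs t ht
    rw [path_pair _ _ ht, path_const _ ht]
    exact h s hs t ht
  have hpath : ∀ s ∈ Icc (0:ℝ) 1, ∀ t ∈ Icc (0:ℝ) 1,
      path (comp Ψ (pair (const s) ξ)) t = Ψ (s, path ξ t) := by
    intro s hs t ht
    rw [path_comp hΩ hΨ (hmem s hs) ht, path_pair _ _ ht, path_const _ ht]
  refine JoinedIn.ofLine (f := fun s : ℝ => comp Ψ (pair (const s) ξ)) ?_ ?_ ?_ ?_
  · have hc : Continuous (fun s : ℝ => pair (const s) ξ) :=
      continuous_pair.comp (Continuous.prodMk continuous_const' (continuous_const (y := ξ)))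
    exact (continuousOn_comp hΩ hΨ).comp hc.continuousOn (fun s hs => hmem s hs)
  · apply path_injective
    intro t ht
    rw [hpath 0 ⟨le_rfl, zero_le_one⟩ t ht, h0 t ht]
  · apply path_injective
    intro t ht
    rw [hpath 1 ⟨zero_le_one, le_rfl⟩ t ht, h1 t ht]
  · rintro _ ⟨s, hs, rfl⟩
    exact hP s hs _ (hpath s hs)

theorem contDiffOn_toLp {X : Type} [NormedAddCommGroup X] [NormedSpace ℝ X] {Ω : Set X}
    {f g : X → E3} (hf : ContDiffOn ℝ 1 f Ω) (hg : ContDiffOn ℝ 1 g Ω) :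
    ContDiffOn ℝ 1 (fun x => (WithLp.toLp 2 (f x, g x) : V6)) Ω :=
  ((WithLp.prodContinuousLinearEquiv 2 ℝ E3 E3).symm.contDiff (n := 1)).comp_contDiffOn
    (hf.prodMk hg)

theorem contDiff_fst' {n : WithTop ℕ∞} : ContDiff ℝ n (fun y : V6 => y.fst) :=
  contDiff_fst.comp (WithLp.prodContinuousLinearEquiv 2 ℝ E3 E3).contDiff

theorem contDiff_snd' {n : WithTop ℕ∞} : ContDiff ℝ n (fun y : V6 => y.snd) :=
  contDiff_snd.comp (WithLp.prodContinuousLinearEquiv 2 ℝ E3 E3).contDiff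

/-- the homotopy in `S² × S²` -/
noncomputable def dH (q₁ q₂ : E3) (z : ℝ × V6 × V6) : V6 :=
  WithLp.toLp 2 (sH q₁ z.1 z.2.1.fst z.2.2.fst, sH q₂ z.1 z.2.1.snd z.2.2.snd)

/-- its domain -/
def dΩ (q₁ q₂ : E3) : Set (ℝ × V6 × V6) :=
  {z | (1 - ⟪z.2.1.fst, q₁⟫ ≠ 0 ∧ 1 - ⟪z.2.2.fst, q₁⟫ ≠ 0) ∧
    (1 - ⟪z.2.1.snd, q₂⟫ ≠ 0 ∧ 1 - ⟪z.2.2.snd, q₂⟫ ≠ 0)}

theorem contDiffOn_sH {X : Type} [NormedAddCommGroup X] [NormedSpace ℝ X] {Ω : Set X} (q : E3)
    {s : X → ℝ} {f g : X → E3} (hs : ContDiffOn ℝ 1 s Ω) (hf : ContDiffOn ℝ 1 f Ω)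
    (hg : ContDiffOn ℝ 1 g Ω) (h1 : ∀ x ∈ Ω, 1 - ⟪f x, q⟫ ≠ 0) (h2 : ∀ x ∈ Ω, 1 - ⟪g x, q⟫ ≠ 0) :
    ContDiffOn ℝ 1 (fun x => sH q (s x) (f x) (g x)) Ω := by
  have h3 : ContDiffOn ℝ 1 (fun x => sφ q (f x)) Ω := (contDiffOn_sφ q).comp hf h1
  have h4 : ContDiffOn ℝ 1 (fun x => sφ q (g x)) Ω := (contDiffOn_sφ q).comp hg h2
  have h5 : ContDiffOn ℝ 1 (fun x => (1 - s x) • sφ q (f x)) Ω :=
    (contDiffOn_const.sub hs).smul h3
  have h6 : ContDiffOn ℝ 1 (fun x => s x • sφ q (g x)) Ω := hs.smul h4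
  exact (contDiff_sψ q).comp_contDiffOn (h5.add h6)

theorem isOpen_dΩ (q₁ q₂ : E3) : IsOpen (dΩ q₁ q₂) := by
  have c1 : Continuous (fun y : V6 => y.fst) := (contDiff_fst' (n := 1)).continuous
  have c2 : Continuous (fun y : V6 => y.snd) := (contDiff_snd' (n := 1)).continuous
  have e : ∀ f : ℝ × V6 × V6 → E3, Continuous f → ∀ q : E3,
      IsOpen {z : ℝ × V6 × V6 | 1 - ⟪f z, q⟫ ≠ 0} := by
    intro f hf q
    exact isOpen_ne_fun (continuous_const.sub (hf.inner continuous_const)) continuous_const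
  exact ((e _ (c1.comp continuous_snd.fst) q₁).inter (e _ (c1.comp continuous_snd.snd) q₁)).inter
    ((e _ (c2.comp continuous_snd.fst) q₂).inter (e _ (c2.comp continuous_snd.snd) q₂))

theorem contDiffOn_dH (q₁ q₂ : E3) : ContDiffOn ℝ 1 (dH q₁ q₂) (dΩ q₁ q₂) := by
  have hs : ContDiff ℝ 1 (fun z : ℝ × V6 × V6 => z.1) := contDiff_fst
  have h1 : ContDiff ℝ 1 (fun z : ℝ × V6 × V6 => z.2.1.fst) :=
    contDiff_fst'.comp (contDiff_fst.comp contDiff_snd)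
  have h2 : ContDiff ℝ 1 (fun z : ℝ × V6 × V6 => z.2.2.fst) :=
    contDiff_fst'.comp (contDiff_snd.comp contDiff_snd)
  have h3 : ContDiff ℝ 1 (fun z : ℝ × V6 × V6 => z.2.1.snd) :=
    contDiff_snd'.comp (contDiff_fst.comp contDiff_snd)
  have h4 : ContDiff ℝ 1 (fun z : ℝ × V6 × V6 => z.2.2.snd) :=
    contDiff_snd'.comp (contDiff_snd.comp contDiff_snd)
  exact contDiffOn_toLp
    (contDiffOn_sH q₁ hs.contDiffOn h1.contDiffOn h2.contDiffOn (fun x hx => hx.1.1)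
      (fun x hx => hx.1.2))
    (contDiffOn_sH q₂ hs.contDiffOn h3.contDiffOn h4.contDiffOn (fun x hx => hx.2.1)
      (fun x hx => hx.2.2))

/-- two paths in `P` with the same starting point are joined -/
theorem joinedIn_same_start {γ η : H1 V6} (hγ : γ ∈ PathSpace NN0 MM pp)
    (hη : η ∈ PathSpace NN0 MM pp) (h0 : path γ 0 = path η 0) :
    JoinedIn (PathSpace NN0 MM pp) γ η := by
  obtain ⟨s1, hs1⟩ := exists_length γ
  obtain ⟨s2, hs2⟩ := exists_length η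
  have nf : ∀ y : V6, ‖y.fst‖ ≤ ‖y‖ := fun y => WithLp.norm_fst_le _ y
  have ns : ∀ y : V6, ‖y.snd‖ ≤ ‖y‖ := fun y => WithLp.norm_snd_le _ y
  obtain ⟨q₁, hq₁, ha₁, hb₁⟩ := exists_missed (fun t => (path γ t).fst)
    (fun t => (path η t).fst) s1 s2 (fun t ht => (hγ.2.2 t ht).1) (fun t ht => (hη.2.2 t ht).1)
    (fun t ht u hu => (nf (path γ t - path γ u)).trans (hs1 t ht u hu))
    (fun t ht u hu => (nf (path η t - path η u)).trans (hs2 t ht u hu))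
  obtain ⟨q₂, hq₂, ha₂, hb₂⟩ := exists_missed (fun t => (path γ t).snd)
    (fun t => (path η t).snd) s1 s2 (fun t ht => (hγ.2.2 t ht).2) (fun t ht => (hη.2.2 t ht).2)
    (fun t ht u hu => (ns (path γ t - path γ u)).trans (hs1 t ht u hu))
    (fun t ht u hu => (ns (path η t - path η u)).trans (hs2 t ht u hu))
  have i0 : (0:ℝ) ∈ Icc (0:ℝ) 1 := ⟨le_rfl, zero_le_one⟩
  have i1 : (1:ℝ) ∈ Icc (0:ℝ) 1 := ⟨zero_le_one, le_rfl⟩
  refine joinedIn_of_comp (isOpen_dΩ q₁ q₂) (contDiffOn_dH q₁ q₂) (pair γ η) γ η ?_ ?_ ?_ ?_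
  · intro s hs t ht
    rw [path_pair _ _ ht]
    exact ⟨⟨inner_ne_one hq₁ (hγ.2.2 t ht).1 (ha₁ t ht),
      inner_ne_one hq₁ (hη.2.2 t ht).1 (hb₁ t ht)⟩,
      ⟨inner_ne_one hq₂ (hγ.2.2 t ht).2 (ha₂ t ht),
      inner_ne_one hq₂ (hη.2.2 t ht).2 (hb₂ t ht)⟩⟩
  · intro t ht
    rw [path_pair _ _ ht]
    simp only [dH]
    rw [sH_zero hq₁ (hγ.2.2 t ht).1 (ha₁ t ht), sH_zero hq₂ (hγ.2.2 t ht).2 (ha₂ t ht)]
    rfl
  · intro t ht
    rw [path_pair _ _ ht]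
    simp only [dH]
    rw [sH_one hq₁ (hη.2.2 t ht).1 (hb₁ t ht), sH_one hq₂ (hη.2.2 t ht).2 (hb₂ t ht)]
    rfl
  · intro s hs μ hμ
    have same : ∀ t ∈ Icc (0:ℝ) 1, path γ t = path η t → path μ t = path γ t := by
      intro t ht hte
      rw [hμ t ht, path_pair _ _ ht]
      simp only [dH]
      rw [← hte, sH_same hq₁ (hγ.2.2 t ht).1 (ha₁ t ht), sH_same hq₂ (hγ.2.2 t ht).2 (ha₂ t ht)]
      rfl
    refine ⟨?_, ?_, ?_⟩
    · rw [same 0 i0 h0]
      exact hγ.1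
    · rw [same 1 i1 (by rw [hγ.2.1, hη.2.1])]
      exact hγ.2.1
    · intro t ht
      rw [hμ t ht]
      exact ⟨norm_sH hq₁ _ _ _, norm_sH hq₂ _ _ _⟩

/-- the base point `(1,0,0)` of the equator -/
noncomputable def x0 : E3 := !₂[1, 0, 0]

/-- the base point of `M` -/
noncomputable def xx0 : V6 := WithLp.toLp 2 (x0, x0)

/-- every path is joined to a path starting at the base point -/
theorem exists_joined_start {γ : H1 V6} (hγ : γ ∈ PathSpace NN0 MM pp) :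
    ∃ η ∈ PathSpace NN0 MM pp, path η 0 = xx0 ∧ JoinedIn (PathSpace NN0 MM pp) γ η := by
  obtain ⟨⟨hn, h2⟩, hfs⟩ := hγ.1
  obtain ⟨θ, hθ0, hθ1⟩ : ∃ θ : ℝ, (path γ 0).fst 0 = Real.cos θ ∧ (path γ 0).fst 1 = Real.sin θ := by
    set x := (path γ 0).fst 0 with hx
    set y := (path γ 0).fst 1 with hy
    have h3 : x ^ 2 + y ^ 2 = 1 := by
      have h4 := EuclideanSpace.norm_sq_eq (path γ 0).fst
      rw [hn, Fin.sum_univ_three, h2] at h4
      simp only [Real.norm_eq_abs, sq_abs] at h4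
      rw [hx, hy]
      nlinarith
    have h5 : ‖(⟨x, y⟩ : ℂ)‖ = 1 := by
      have h6 : ‖(⟨x, y⟩ : ℂ)‖ ^ 2 = 1 := by
        rw [Complex.sq_norm, Complex.normSq_mk]
        nlinarith
      have h7 := norm_nonneg (⟨x, y⟩ : ℂ)
      nlinarith [sq_nonneg (‖(⟨x, y⟩ : ℂ)‖ - 1)]
    obtain ⟨θ, hθ⟩ := (Complex.norm_eq_one_iff _).1 h5
    refine ⟨θ, ?_, ?_⟩
    · have := congrArg Complex.re hθ
      rw [Complex.exp_ofReal_mul_I_re] at this
      exact this.symm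
    · have := congrArg Complex.im hθ
      rw [Complex.exp_ofReal_mul_I_im] at this
      exact this.symm
  let Ψ : ℝ × ℝ × V6 → V6 := fun z => WithLp.toLp 2
    (rot (-(z.1 * θ * (1 - z.2.1))) z.2.2.fst, rot (-(z.1 * θ * (1 - z.2.1))) z.2.2.snd)
  have hΨ : ContDiffOn ℝ 1 Ψ univ := by
    have ha : ContDiff ℝ 1 (fun z : ℝ × ℝ × V6 => -(z.1 * θ * (1 - z.2.1))) :=
      ((contDiff_fst.mul contDiff_const).mul (contDiff_const.sub
        (contDiff_fst.comp contDiff_snd))).neg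
    have h1 : ContDiff ℝ 1 (fun z : ℝ × ℝ × V6 => z.2.2.fst) :=
      contDiff_fst'.comp (contDiff_snd.comp contDiff_snd)
    have h2 : ContDiff ℝ 1 (fun z : ℝ × ℝ × V6 => z.2.2.snd) :=
      contDiff_snd'.comp (contDiff_snd.comp contDiff_snd)
    exact contDiffOn_toLp (contDiff_rot ha h1).contDiffOn (contDiff_rot ha h2).contDiffOn
  have i0 : (0:ℝ) ∈ Icc (0:ℝ) 1 := ⟨le_rfl, zero_le_one⟩
  have i1 : (1:ℝ) ∈ Icc (0:ℝ) 1 := ⟨zero_le_one, le_rfl⟩
  have hpi : ∀ t ∈ Icc (0:ℝ) 1, path (pair idPath γ) t = (t, path γ t) := by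
    intro t ht
    rw [path_pair _ _ ht, path_idPath ht]
  have hmem : ∀ s ∈ Icc (0:ℝ) 1, ∀ μ : H1 V6,
      (∀ t ∈ Icc (0:ℝ) 1, path μ t = Ψ (s, path (pair idPath γ) t)) →
      μ ∈ PathSpace NN0 MM pp := by
    intro s hs μ hμ
    refine ⟨?_, ?_, ?_⟩
    · rw [hμ 0 i0, hpi 0 i0]
      refine ⟨⟨?_, ?_⟩, ?_⟩
      · change ‖rot _ (path γ 0).fst‖ = 1
        rw [norm_rot, hn]
      · change (rot _ (path γ 0).fst) 2 = 0
        simp [rot, h2]
      · change rot _ (path γ 0).fst = rot _ (path γ 0).snd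
        rw [hfs]
    · rw [hμ 1 i1, hpi 1 i1]
      simp only [Ψ, sub_self, mul_zero, neg_zero, rot_zero]
      exact hγ.2.1
    · intro t ht
      rw [hμ t ht, hpi t ht]
      refine ⟨?_, ?_⟩
      · change ‖rot _ (path γ t).fst‖ = 1
        rw [norm_rot]
        exact (hγ.2.2 t ht).1
      · change ‖rot _ (path γ t).snd‖ = 1
        rw [norm_rot]
        exact (hγ.2.2 t ht).2
  set η : H1 V6 := comp Ψ (pair (const 1) (pair idPath γ)) with hη
  have hηp : ∀ t ∈ Icc (0:ℝ) 1, path η t = Ψ (1, path (pair idPath γ) t) := by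
    intro t ht
    rw [hη, path_comp isOpen_univ hΨ (fun _ _ => mem_univ _) ht, path_pair _ _ ht, path_const _ ht]
  refine ⟨η, hmem 1 i1 η hηp, ?_, ?_⟩
  · rw [hηp 0 i0, hpi 0 i0]
    have hx : rot (-(1 * θ * (1 - 0))) (path γ 0).fst = x0 := by
      have hc := Real.cos_sq_add_sin_sq θ
      ext i
      fin_cases i
      · simp [rot, x0, hθ0, hθ1]
        nlinarith
      · simp [rot, x0, hθ0, hθ1]
        ring
      · simp [rot, x0, h2]
    simp only [Ψ, xx0]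
    rw [← hfs, hx]
  · refine joinedIn_of_comp isOpen_univ hΨ (pair idPath γ) γ η (fun _ _ _ _ => mem_univ _) ?_ ?_ hmem
    · intro t ht
      rw [hpi t ht]
      simp only [Ψ, zero_mul, neg_zero, rot_zero]
      rfl
    · intro t ht
      exact (hηp t ht).symm

/-- a base path -/
theorem exists_base : ∃ η ∈ PathSpace NN0 MM pp, path η 0 = xx0 := by
  let c : ℝ → ℝ → E3 := fun a t => !₂[Real.cos (a * t), 0, Real.sin (a * t)]
  let B : ℝ → V6 := fun t => WithLp.toLp 2 (c (Real.arccos (3/5)) t, c (Real.arccos (-3/5)) t)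
  have hc : ∀ a : ℝ, ContDiff ℝ 1 (c a) := by
    intro a
    have h1 : ContDiff ℝ 1 (fun t : ℝ => a * t) := contDiff_const.mul contDiff_id
    apply contDiff_euclidean.2
    intro i
    fin_cases i
    · simpa [c] using h1.cos
    · simpa [c] using contDiff_const
    · simpa [c] using h1.sin
  have hB : ContDiffOn ℝ 1 B univ := contDiffOn_toLp (hc _).contDiffOn (hc _).contDiffOn
  have hcn : ∀ a t : ℝ, ‖c a t‖ = 1 := by
    intro a t
    rw [EuclideanSpace.norm_eq]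
    simp [Fin.sum_univ_three, c]
  have hp : ∀ t ∈ Icc (0:ℝ) 1, path (comp B idPath) t = B t := by
    intro t ht
    rw [path_comp isOpen_univ hB (fun _ _ => mem_univ _) ht, path_idPath ht]
  have i0 : (0:ℝ) ∈ Icc (0:ℝ) 1 := ⟨le_rfl, zero_le_one⟩
  have i1 : (1:ℝ) ∈ Icc (0:ℝ) 1 := ⟨zero_le_one, le_rfl⟩
  have hc0 : ∀ a : ℝ, c a 0 = x0 := by
    intro a
    simp [c, x0]
  have h0 : path (comp B idPath) 0 = xx0 := by
    rw [hp 0 i0]
    simp only [B, xx0, hc0]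
  refine ⟨comp B idPath, ⟨?_, ?_, ?_⟩, h0⟩
  · rw [h0]
    refine ⟨⟨?_, ?_⟩, rfl⟩
    · have := hcn 0 0
      rwa [hc0] at this
    · simp [xx0, x0]
  · rw [hp 1 i1]
    have e1 : c (Real.arccos (3/5)) 1 = p1 := by
      simp only [c, p1, mul_one]
      rw [Real.cos_arccos (by norm_num) (by norm_num), Real.sin_arccos]
      have : √(1 - (3 / 5 : ℝ) ^ 2) = 4 / 5 := by
        rw [Real.sqrt_eq_iff_mul_self_eq (by norm_num) (by norm_num)]
        norm_num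
      rw [this]
    have e2 : c (Real.arccos (-3/5)) 1 = p2 := by
      simp only [c, p2, mul_one]
      rw [Real.cos_arccos (by norm_num) (by norm_num), Real.sin_arccos]
      have : √(1 - (-3 / 5 : ℝ) ^ 2) = 4 / 5 := by
        rw [Real.sqrt_eq_iff_mul_self_eq (by norm_num) (by norm_num)]
        norm_num
      rw [this]
    simp only [B, pp]
    rw [e1, e2]
  · intro t ht
    rw [hp t ht]
    exact ⟨hcn _ _, hcn _ _⟩

/-- the path space is path connected -/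
theorem pconn : PathConnectedSpace (PathSpace NN0 MM pp) := by
  rw [← isPathConnected_iff_pathConnectedSpace]
  obtain ⟨β, hβ, hβ0⟩ := exists_base
  refine ⟨β, hβ, ?_⟩
  intro γ hγ
  obtain ⟨η, hη, hη0, hj⟩ := exists_joined_start hγ
  exact (joinedIn_same_start hβ hη (by rw [hβ0, hη0])).trans hj.symm

end Pool.Agent.Helper81.TautD
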